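import Pool.Agent.W602.RG.Stm

/-!
# Project RG, part CLS: relations split along the classes of `Rel`
-/

set_option autoImplicit false

open FF MvPolynomial Pool.Agent.W603.LV Pool.Agent.W603.PV

namespace Pool.Agent.W699.RG.CLS

open Pool.Agent.W602.RG

section der

variable {L E : Type} [Field L] [Field E] [Algebra L E] (D : Derivation L E E)

theorem D_mul {a b : E} (ha : D a = 0) (hb : D b = 0) : D (a * b) = 0 := by
  rw [Derivation.leibniz, ha, hb, smul_zero, smul_zero, add_zero]

theorem D_inv {a : E} (ha : D a = 0) : D a⁻¹ = 0 := by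
  rw [Derivation.leibniz_inv, ha, smul_zero]

theorem D_div {a b : E} (ha : D a = 0) (hb : D b = 0) : D (a / b) = 0 := by
  rw [div_eq_mul_inv]
  exact D_mul D ha (D_inv D hb)

end der

theorem rel_trans {L Ω E : Type} [Field L] [Field Ω] [Field E] [Algebra L E] [Algebra Ω E]
    (D : Derivation L E E) {x y z : E} (h1 : Rel Ω D x y) (h2 : Rel Ω D y z) : Rel Ω D x z := by
  obtain ⟨ω, e, hω, he, hD, hx⟩ := h1
  obtain ⟨ω', e', hω', he', hD', hy⟩ := h2
  refine ⟨ω * ω', e * e', mul_ne_zero hω hω', mul_ne_zero he he', D_mul D hD hD', ?_⟩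
  rw [hx, hy, map_mul]
  ring

/-- functions with the same orders -/
theorem rel_of_ord {L Ω E : Type} [Field L] [Field Ω] [Field E] [Algebra L E] [Algebra Ω E]
    [CharZero Ω] [IsAlgClosed Ω] [IsFF Ω E] (D : Derivation L E E) {a b x y : E}
    (ha : a ≠ 0) (hb : b ≠ 0) (hx : x ≠ 0) (hy : y ≠ 0) (hDa : D a = 0) (hDb : D b = 0)
    (h : ∀ P : Place Ω E, P.ord (a * x) = P.ord (b * y)) : Rel Ω D x y := by
  have h1 : hgt Ω (a * x / (b * y)) ≤ 0 := by
    rw [hgt_finset (k := Ω) _ ∅]
    · simp
    · intro P hP
      exfalso
      apply hP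
      rw [P.ord_div (mul_ne_zero ha hx) (mul_ne_zero hb hy), h P, sub_self]
  obtain ⟨ω, hω⟩ := const_of_hgt h1
  have h2 : a * x / (b * y) ≠ 0 := div_ne_zero (mul_ne_zero ha hx) (mul_ne_zero hb hy)
  refine ⟨ω, b / a, ?_, div_ne_zero hb ha, D_div D hDb hDa, ?_⟩
  · rintro rfl
    rw [map_zero] at hω
    exact h2 hω
  · rw [← hω]
    field_simp

theorem main (h : S_CIR) : S_CLS := by
  intro L Ω E α _ _ _ _ _ _ _ _ _ D hRM J N hN hJN M
  classical
  intro c hM hDc hsum hdvd j0 T hj0 hT
  have hTJ : T ⊆ J := fun i hi => ((hT i).1 hi).1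
  -- strong induction on the size of the support
  have key : ∀ n : ℕ, ∀ c : α → E, (∀ i ∈ J, D (c i) = 0) → ∑ i ∈ J, c i * M i = 0 →
      (J.filter (fun i => c i ≠ 0)).card = n → ∑ i ∈ T, c i * M i = 0 := by
    intro n
    induction n using Nat.strong_induction_on with
    | _ n ih =>
      intro c hDc hsum hcard
      set J' := J.filter (fun i => c i ≠ 0) with hJ'
      have hJ'J : J' ⊆ J := Finset.filter_subset _ _
      have hmem : ∀ i, i ∈ J' ↔ i ∈ J ∧ c i ≠ 0 := fun i => Finset.mem_filter
      -- sums over `J'`
      have hsumJ' : ∑ i ∈ J', c i * M i = 0 := by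
        rw [← hsum]
        refine Finset.sum_subset hJ'J fun i hi hi' => ?_
        have : c i = 0 := by
          by_contra hc
          exact hi' ((hmem i).2 ⟨hi, hc⟩)
        rw [this, zero_mul]
      by_cases hemp : J' = ∅
      · refine Finset.sum_eq_zero fun i hi => ?_
        have : c i = 0 := by
          by_contra hc
          have : i ∈ J' := (hmem i).2 ⟨hTJ hi, hc⟩
          rw [hemp] at this
          exact absurd this (Finset.notMem_empty i)
        rw [this, zero_mul]
      by_cases hcirc : ∀ d : α → E, (∀ i ∈ J', D (d i) = 0) → (∃ i ∈ J', d i = 0) →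
          ∑ i ∈ J', d i * M i = 0 → ∀ i ∈ J', d i = 0
      · -- circuit
        have hpos : 0 < J'.card := Finset.card_pos.2 (Finset.nonempty_iff_ne_empty.2 hemp)
        obtain ⟨r, hr⟩ : ∃ r, J'.card = r + 1 := ⟨J'.card - 1, by omega⟩
        let e : Fin (r + 1) ≃ J' := (Finset.equivFinOfCardEq hr).symm
        have hrN : r ^ 2 ≤ N := by
          have h1 : r ≤ J.card - 1 := by
            have := Finset.card_le_card hJ'J
            omega
          exact (Nat.pow_le_pow_left h1 2).trans hJN
        have hsumE : ∀ f : α → E, ∑ i : Fin (r + 1), f (e i) = ∑ x ∈ J', f x := by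
          intro f
          rw [← Finset.sum_coe_sort J' f]
          exact Equiv.sum_comp e (fun x : J' => f x)
        have he : ∀ i, (e i : α) ∈ J ∧ c (e i) ≠ 0 := fun i => (hmem _).1 (e i).2
        have hords := h L Ω E D hRM r N hN hrN (fun i => M (e i)) (fun i => c (e i))
          (fun i => hM _ (he i).1) (fun i => (he i).2) (fun i => hDc _ (he i).1)
          (by rw [hsumE fun x => c x * M x]; exact hsumJ')
          (by
            intro c' hDc' hex hs i
            obtain ⟨i0, hi0⟩ := hex
            have hd1 : ∀ j : Fin (r + 1),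
                (if hx : (e j : α) ∈ J' then c' (e.symm ⟨e j, hx⟩) else 0) = c' j := by
              intro j
              rw [dif_pos (e j).2]
              simp
            have hd := hcirc (fun x => if hx : x ∈ J' then c' (e.symm ⟨x, hx⟩) else 0)
              (by
                intro x hx
                rw [dif_pos hx]
                exact hDc' _)
              ⟨e i0, (e i0).2, by rw [hd1]; exact hi0⟩
              (by
                rw [← hsumE fun x => (if hx : x ∈ J' then c' (e.symm ⟨x, hx⟩) else 0) * M x]
                exact (Finset.sum_congr rfl fun j _ => by rw [hd1]).trans hs)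
              (e i) (e i).2
            rw [hd1] at hd
            exact hd)
          (fun P hP i j => hdvd P hP _ (he i).1 _ (he j).1)
        have hrel : ∀ x ∈ J', ∀ y ∈ J', Rel Ω D (M x) (M y) := by
          intro x hx y hy
          obtain ⟨hx1, hx2⟩ := (hmem x).1 hx
          obtain ⟨hy1, hy2⟩ := (hmem y).1 hy
          refine rel_of_ord D hx2 hy2 (hM x hx1) (hM y hy1) (hDc x hx1) (hDc y hy1) fun P => ?_
          have := hords P (e.symm ⟨x, hx⟩) (e.symm ⟨y, hy⟩)
          simpa using this
        by_cases hint : ∃ i1 ∈ T, i1 ∈ J'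
        · obtain ⟨i1, hi1, hi1'⟩ := hint
          have hsub : J' ⊆ T := fun i hi =>
            (hT i).2 ⟨hJ'J hi, rel_trans D (hrel i hi i1 hi1') ((hT i1).1 hi1).2⟩
          rw [← hsumJ']
          symm
          refine Finset.sum_subset hsub fun i hi hi' => ?_
          have : c i = 0 := by
            by_contra hc
            exact hi' ((hmem i).2 ⟨hTJ hi, hc⟩)
          rw [this, zero_mul]
        · refine Finset.sum_eq_zero fun i hi => ?_
          have : c i = 0 := by
            by_contra hc
            exact hint ⟨i, hi, (hmem i).2 ⟨hTJ hi, hc⟩⟩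
          rw [this, zero_mul]
      · -- not a circuit
        push Not at hcirc
        obtain ⟨d, hDd, ⟨i0, hi0, hdi0⟩, hds, i1, hi1, hdi1⟩ := hcirc
        set d' : α → E := fun x => if x ∈ J' then d x else 0 with hd'
        have hd'D : ∀ i ∈ J, D (d' i) = 0 := by
          intro i _
          simp only [hd']
          split_ifs with hi
          · exact hDd i hi
          · exact map_zero D
        have hd'm : ∀ i ∈ J', d' i = d i := fun i hi => if_pos hi
        have hd'n : ∀ i, i ∉ J' → d' i = 0 := fun i hi => if_neg hi
        have hd's : ∑ i ∈ J, d' i * M i = 0 := by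
          rw [← hds, ← Finset.sum_subset hJ'J fun i _ hi' => by rw [hd'n i hi', zero_mul]]
          exact Finset.sum_congr rfl fun i hi => by rw [hd'm i hi]
        have hcard1 : (J.filter (fun i => d' i ≠ 0)).card < n := by
          rw [← hcard]
          refine Finset.card_lt_card (Finset.ssubset_iff_subset_ne.2 ⟨?_, ?_⟩)
          · intro i hi
            by_contra hi'
            exact (Finset.mem_filter.1 hi).2 (hd'n i hi')
          · intro heq
            rw [← heq] at hi0
            apply (Finset.mem_filter.1 hi0).2
            by_cases hm : i0 ∈ J'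
            · rw [hd'm i0 hm, hdi0]
            · exact hd'n i0 hm
        have e1 := ih _ hcard1 d' hd'D hd's rfl
        set q : E := c i1 / d i1 with hq
        have hqD : D q = 0 := D_div D (hDc i1 (hJ'J hi1)) (hDd i1 hi1)
        have hc'D : ∀ i ∈ J, D (c i - q * d' i) = 0 := by
          intro i hi
          rw [map_sub, hDc i hi, D_mul D hqD (hd'D i hi), sub_zero]
        have hc's : ∑ i ∈ J, (c i - q * d' i) * M i = 0 := by
          have : ∀ i ∈ J, (c i - q * d' i) * M i = c i * M i - q * (d' i * M i) := fun i _ => by
            ring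
          rw [Finset.sum_congr rfl this, Finset.sum_sub_distrib, ← Finset.mul_sum, hsum, hd's,
            mul_zero, sub_zero]
        have hcard2 : (J.filter (fun i => c i - q * d' i ≠ 0)).card < n := by
          rw [← hcard]
          refine Finset.card_lt_card (Finset.ssubset_iff_subset_ne.2 ⟨?_, ?_⟩)
          · intro i hi
            obtain ⟨hi2, hi3⟩ := Finset.mem_filter.1 hi
            by_contra hi'
            have h1 : c i = 0 := by
              by_contra hc
              exact hi' ((hmem i).2 ⟨hi2, hc⟩)
            apply hi3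
            rw [h1, hd'n i hi', mul_zero, sub_zero]
          · intro heq
            have hi1' := hi1
            rw [← heq] at hi1'
            apply (Finset.mem_filter.1 hi1').2
            rw [hd'm i1 hi1, hq, div_mul_cancel₀ _ hdi1, sub_self]
        have e2 := ih _ hcard2 (fun i => c i - q * d' i) hc'D hc's rfl
        have e3 : ∀ i ∈ T, (c i - q * d' i) * M i = c i * M i - q * (d' i * M i) := fun i _ => by
          ring
        rw [Finset.sum_congr rfl e3, Finset.sum_sub_distrib, ← Finset.mul_sum, e1, mul_zero,
          sub_zero] at e2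
        exact e2
  exact key _ c hDc hsum rfl

end Pool.Agent.W699.RG.CLS
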